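import Pool.Agent.Lib.MP_74ab55_al.Ins.Main

/-!
# MP_74ab55_al: boundedly Engel elements of linearly ordered groups, uniform form
-/

set_option autoImplicit false

namespace Pool.Agent.Results.MP_74ab55_al.NilpotentClosure

universe u

/-- For all `m` and `n` there is one `c` such that in every linearly ordered group `G` any `m`
elements `a i` with `[x, a i, ..., a i] = 1` (`n` times `a i`) for all `x` in `G` generate a
subgroup which is nilpotent of class at most `c`, and every element `g` of this subgroup satisfies
`[x, g, ..., g] = 1` (`c` times `g`) for all `x` in `G`.  Here `[y, g] = y⁻¹ * g⁻¹ * y * g`. -/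
theorem result (m n : ℕ) :
    ∃ c : ℕ, ∀ (G : Type u) [Group G] [LinearOrder G] [MulLeftMono G] [MulRightMono G]
      (a : Fin m → G),
      (∀ i : Fin m, ∀ x : G, (fun y : G => y⁻¹ * (a i)⁻¹ * y * a i)^[n] x = 1) →
      Group.IsNilpotent (Subgroup.closure (Set.range a)) ∧
      Group.nilpotencyClass (Subgroup.closure (Set.range a)) ≤ c ∧
      ∀ g ∈ Subgroup.closure (Set.range a), ∀ x : G,
        (fun y : G => y⁻¹ * g⁻¹ * y * g)^[c] x = 1 :=
  Pool.Agent.Lib.MP_74ab55_al.Ins.main m n

end Pool.Agent.Results.MP_74ab55_al.NilpotentClosure
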